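import Pool.Agent.J6H38.DX.Stm
import Pool.Agent.J6H9.NX.G2

/-!
# Module CORE: two rays directed in opposite faces separate directions
-/

set_option autoImplicit false

open MeasureTheory ProbabilityTheory Filter Topology
open scoped ENNReal

namespace Pool.Agent.J6H9.DX

open Pool.Agent.J6H99.NX Pool.Agent.J6H38.DX Pool.Agent.J6H9.NX

/-! ### determinants -/

lemma cr_self (u : E 0) : cr u u = 0 := by unfold cr; ring

lemma cr_anti (u v : E 0) : cr v u = -cr u v := by unfold cr; ring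

lemma cr_zero (u : E 0) : cr u 0 = 0 := by simp [cr]

lemma cr_add (u v w : E 0) : cr u (v + w) = cr u v + cr u w := by
  simp only [cr, Pi.add_apply]; ring

lemma cr_smul (t : ℝ) (u v : E 0) : cr u (t • v) = t * cr u v := by
  simp only [cr, Pi.smul_apply, smul_eq_mul]; ring

lemma cr_neg (u v : E 0) : cr u (-v) = -cr u v := by
  simp only [cr, Pi.neg_apply]; ring

lemma cr_seg (k y w : E 0) (s : ℝ) :
    cr k (y + s • (w - y)) = (1 - s) * cr k y + s * cr k w := by
  simp only [cr, Pi.add_apply, Pi.smul_apply, smul_eq_mul, Pi.sub_apply]; ring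

/-! ### the excess of the time constant over a functional -/

/-- the excess of the time constant over the functional `c` -/
noncomputable def D (q : Par) (F : Measure ℝ) [IsProbabilityMeasure F] (c y : E 0) : ℝ :=
  L q F y - dt c y

variable {q : Par} {F : Measure ℝ} [IsProbabilityMeasure F] [MB q F]

lemma D_smul {t : ℝ} (ht : 0 < t) (c y : E 0) : D q F c (t • y) = t * D q F c y := by
  unfold D; rw [L_smul ht, dt_smul]; ring

lemma D_add (c y z : E 0) : D q F c (y + z) ≤ D q F c y + D q F c z := by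
  unfold D; rw [dt_add]; linarith [L_add (q := q) (F := F) y z]

lemma D_le (c y : E 0) : D q F c y ≤ (q.b + nr c) * nr y := by
  have h1 := L_bound (q := q) (F := F) y
  have h2 := abs_le.1 (abs_dt_le c y)
  unfold D
  linarith [h2.1]

lemma D_sub_le (c y z : E 0) : D q F c y ≤ D q F c z + (q.b + nr c) * nr (y - z) := by
  have h1 := D_add (q := q) (F := F) c z (y - z)
  rw [add_sub_cancel] at h1
  linarith [D_le (q := q) (F := F) c (y - z)]

lemma D_cont (c : E 0) : Continuous (D q F c) := by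
  rw [continuous_iff_continuousAt]
  intro z
  have h1 : Tendsto (fun y : E 0 => (q.b + nr c) * nr (y - z)) (𝓝 z) (𝓝 0) := by
    have h2 : Continuous fun y : E 0 => (q.b + nr c) * nr (y - z) := by
      unfold nr; fun_prop
    have h3 := h2.tendsto z
    simpa using h3
  refine tendsto_iff_norm_sub_tendsto_zero.2 (squeeze_zero (fun y => norm_nonneg _) (fun y => ?_) h1)
  rw [Real.norm_eq_abs, abs_le]
  have h2 := D_sub_le (q := q) (F := F) c y z
  have h3 := D_sub_le (q := q) (F := F) c z y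
  rw [nr_sub_comm z y] at h3
  constructor <;> linarith

lemma L_neg_le (y : E 0) : L q F (-y) ≤ L q F y := by
  refine L_le (U_of (K := q.b * (2 * ((0 : ℕ) + 2) + 2)) fun δ hδ => ?_)
  filter_upwards [U_L (q := q) (F := F) y δ hδ] with n hn
  have h1 := g_sub_le q F (rnd ((n : ℝ) • (-y))) (-(rnd ((n : ℝ) • y)))
  rw [g_neg] at h1
  have h2 : (n1 (rnd ((n : ℝ) • (-y)) - -(rnd ((n : ℝ) • y))) : ℝ) ≤ 2 * ((0 : ℕ) + 2) + 2 := by
    rw [← nr_vc, vc_sub, vc_neg]
    have h3 : vc (rnd ((n : ℝ) • (-y))) - -vc (rnd ((n : ℝ) • y)) =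
        (vc (rnd ((n : ℝ) • (-y))) - (n : ℝ) • (-y)) + (vc (rnd ((n : ℝ) • y)) - (n : ℝ) • y) := by
      rw [smul_neg]; abel
    rw [h3]
    have h4 := nr_add_le (vc (rnd ((n : ℝ) • (-y))) - (n : ℝ) • (-y))
      (vc (rnd ((n : ℝ) • y)) - (n : ℝ) • y)
    have h5 := nr_rnd_sub ((n : ℝ) • (-y))
    have h6 := nr_rnd_sub ((n : ℝ) • y)
    linarith
  have h7 := mul_le_mul_of_nonneg_left h2 q.hb.le
  linarith

lemma L_neg (y : E 0) : L q F (-y) = L q F y := by
  refine le_antisymm (L_neg_le y) ?_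
  have := L_neg_le (q := q) (F := F) (-y)
  rwa [neg_neg] at this

lemma D_neg (c y : E 0) : D q F (-c) y = D q F c (-y) := by
  unfold D; rw [neg_dt, dt_neg, L_neg]

lemma supp_iff_D {c : E 0} (hc : c ∈ CC q F) {y : E 0} : Supp q F c y ↔ D q F c y = 0 := by
  rw [supp_iff]
  unfold D
  constructor
  · rintro ⟨_, h⟩; linarith
  · intro h; exact ⟨hc, by linarith⟩

lemma D_nonneg {c : E 0} (hc : c ∈ CC q F) (y : E 0) : 0 ≤ D q F c y := by
  have := dt_le_L hc y
  unfold D; linarith

lemma isCompact_sphere : IsCompact {y : E 0 | nr y = 1} := by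
  refine Metric.isCompact_of_isClosed_isBounded ?_ ?_
  · exact isClosed_eq (by unfold nr; fun_prop) continuous_const
  · refine (Metric.isBounded_closedBall (x := (0 : E 0)) (r := 1)).subset fun y hy => ?_
    rw [mem_closedBall_zero_iff, pi_norm_le_iff_of_nonneg zero_le_one]
    intro i
    rw [Real.norm_eq_abs]
    exact (abs_coord_le y i).trans (le_of_eq hy)

/-- near the face, a functional which is positive on the face is large -/
lemma grow {c l : E 0} (hc : c ∈ CC q F)
    (hl : ∀ k : E 0, k ≠ 0 → D q F c k = 0 → 0 < dt l k) :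
    ∃ κ : ℝ, 0 < κ ∧ ∀ y : E 0, D q F c y ≤ κ * nr y → κ * nr y ≤ dt l y := by
  have hcont : Continuous fun y : E 0 => max (D q F c y) (dt l y) := by
    refine (D_cont c).max ?_
    unfold dt; fun_prop
  obtain ⟨m, hm, h⟩ := isCompact_sphere.exists_forall_le' hcont.continuousOn (a := 0) (by
    intro y hy
    rcases (D_nonneg hc y).lt_or_eq with h | h
    · exact lt_max_of_lt_left h
    · refine lt_max_of_lt_right (hl y ?_ h.symm)
      rintro rfl
      simp at hy)
  refine ⟨m / 2, by linarith, fun y hy => ?_⟩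
  rcases eq_or_ne y 0 with rfl | hy0
  · simp
  have hn := nr_pos hy0
  have hyy : nr ((nr y)⁻¹ • y) = 1 := by
    rw [nr_smul, abs_of_pos (inv_pos.2 hn), inv_mul_cancel₀ hn.ne']
  have h1 := h _ hyy
  rw [D_smul (inv_pos.2 hn), dt_smul] at h1
  rcases le_max_iff.1 h1 with h2 | h2
  · rw [inv_mul_eq_div, le_div_iff₀ hn] at h2
    nlinarith
  · rw [inv_mul_eq_div, le_div_iff₀ hn] at h2
    nlinarith

/-! ### walks -/

lemma ball_finite9 {e : ℕ} (K : ℤ) : {x : V e | n1 x ≤ K}.Finite := by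
  refine (Set.finite_Icc (fun _ => -K : V e) (fun _ => K)).subset fun x hx => ?_
  have h : ∀ i, |x i| ≤ K := fun i => (coord_le_n1 x i).trans hx
  exact ⟨fun i => (abs_le.1 (h i)).1, fun i => (abs_le.1 (h i)).2⟩

lemma support_of_uses {x y : V 0} (p : (lat 0).Walk x y) {R : Set (V 0)} (h : Uses p (EIn R))
    (hx : x ∈ R) : ∀ v ∈ p.support, v ∈ R := by
  induction p with
  | nil => intro v hv; simp at hv; rw [hv]; exact hx
  | @cons x y z ha p ih =>
    intro v hv
    rw [SimpleGraph.Walk.support_cons, List.mem_cons] at hv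
    rcases hv with rfl | hv
    · exact hx
    · refine ih (fun s hs => h s ?_) ?_ v hv
      · rw [SimpleGraph.Walk.edges_cons]; exact List.mem_cons_of_mem _ hs
      · exact h s(x, y) (by rw [SimpleGraph.Walk.edges_cons]; exact List.mem_cons_self) y
          (Sym2.mem_mk_right x y)

/-- a lattice walk near the cone over a segment of directions outside of the face and of its
negative -/
lemma cone_walk {c : E 0} {y w : E 0}
    (hS : ∀ s : ℝ, 0 ≤ s → s ≤ 1 →
      0 < D q F c (y + s • (w - y)) ∧ 0 < D q F c (-(y + s • (w - y)))) :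
    ∃ η ε : ℝ, 0 < η ∧ 0 < ε ∧ ∀ R0 : ℝ, ∃ R : ℝ, ∀ (t1 t2 : ℝ) (a b : V 0), R ≤ t1 → R ≤ t2 →
      nr (vc a - t1 • y) ≤ ε * t1 → nr (vc b - t2 • w) ≤ ε * t2 →
      ∃ P : (lat 0).Walk a b, ∀ x ∈ P.support,
        R0 ≤ n1 x ∧ η * n1 x < D q F c (vc x) ∧ η * n1 x < D q F c (-vc x) := by
  have hb := q.hb
  have hnc := nr_nonneg c
  obtain ⟨κ, hκ, h⟩ := (isCompact_Icc (a := (0 : ℝ)) (b := 1)).exists_forall_le'
    (f := fun s => min (D q F c (y + s • (w - y))) (D q F c (-(y + s • (w - y)))))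
    (a := 0) (by
      refine Continuous.continuousOn (Continuous.min ((D_cont c).comp ?_) ((D_cont c).comp ?_)) <;>
        fun_prop) (fun s hs => lt_min (hS s hs.1 hs.2).1 (hS s hs.1 hs.2).2)
  set Cc : ℝ := q.b + nr c with hCc
  have hCc0 : 0 < Cc := by linarith
  set M : ℝ := nr y + nr w + 1 with hM
  have hM1 : 1 ≤ M := by have := nr_nonneg y; have := nr_nonneg w; linarith
  set ρ : ℝ := min 1 (κ / (2 * Cc)) with hρ
  have hρ0 : 0 < ρ := lt_min one_pos (by positivity)
  have hρ1 : ρ ≤ 1 := min_le_left _ _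
  have hρ2 : Cc * ρ ≤ κ / 2 := by
    have : ρ ≤ κ / (2 * Cc) := min_le_right _ _
    rw [le_div_iff₀ (by positivity)] at this
    linarith
  have hcE := cE_pos 0
  refine ⟨κ / (4 * (M + 1)), ρ / 2, by positivity, by positivity, fun R0 => ?_⟩
  refine ⟨max 1 (max (2 * cE 0 / ρ) (2 * Cc * |R0| / κ)), fun t1 t2 a b ht1 ht2 ha hb' => ?_⟩
  obtain ⟨P, -, -, hP⟩ := seg_path (a := vc a) (b := vc b) (x := a) (y := b) (r := 0) le_rfl
    (by simp) (by simp)
  refine ⟨P, fun x hx => ?_⟩
  obtain ⟨s, hs0, hs1, hs⟩ := hP x hx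
  replace hs : nr (vc x - (vc a + s • (vc b - vc a))) ≤ cE 0 := by linarith
  have h1t1 : 1 ≤ t1 := (le_max_left _ _).trans ht1
  have h1t2 : 1 ≤ t2 := (le_max_left _ _).trans ht2
  set t : ℝ := (1 - s) * t1 + s * t2 with ht
  have hRt : max 1 (max (2 * cE 0 / ρ) (2 * Cc * |R0| / κ)) ≤ t := by
    rw [ht]
    nlinarith
  have ht1' : 1 ≤ t := (le_max_left _ _).trans hRt
  have ht0 : 0 < t := by linarith
  have htρ : 2 * cE 0 ≤ t * ρ := by
    have : 2 * cE 0 / ρ ≤ t := (le_max_left _ _).trans ((le_max_right _ _).trans hRt)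
    rwa [div_le_iff₀ hρ0] at this
  have htR : 2 * Cc * |R0| ≤ t * κ := by
    have : 2 * Cc * |R0| / κ ≤ t := (le_max_right _ _).trans ((le_max_right _ _).trans hRt)
    rwa [div_le_iff₀ hκ] at this
  set s' : ℝ := s * t2 / t with hs'
  have hs'0 : 0 ≤ s' := by
    rw [hs']; exact div_nonneg (mul_nonneg hs0 (by linarith)) ht0.le
  have hs'1 : s' ≤ 1 := by
    rw [hs', div_le_one ht0, ht]
    have : 0 ≤ (1 - s) * t1 := mul_nonneg (by linarith) (by linarith)
    linarith
  set v : E 0 := y + s' • (w - y) with hv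
  have htv : t • v = ((1 - s) * t1) • y + (s * t2) • w := by
    funext i
    simp only [hv, hs', ht, Pi.smul_apply, Pi.add_apply, Pi.sub_apply, smul_eq_mul]
    have : (1 - s) * t1 + s * t2 ≠ 0 := ht0.ne'
    field_simp
    ring
  have hdist : nr (vc x - t • v) ≤ ρ * t := by
    have e1 : vc x - t • v = (vc x - (vc a + s • (vc b - vc a))) +
        ((1 - s) • (vc a - t1 • y) + s • (vc b - t2 • w)) := by
      rw [htv]
      funext i
      simp only [Pi.smul_apply, Pi.add_apply, Pi.sub_apply, smul_eq_mul]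
      ring
    rw [e1]
    have h2 := nr_add_le (vc x - (vc a + s • (vc b - vc a)))
      ((1 - s) • (vc a - t1 • y) + s • (vc b - t2 • w))
    have h3 := nr_add_le ((1 - s) • (vc a - t1 • y)) (s • (vc b - t2 • w))
    rw [nr_smul, nr_smul, abs_of_nonneg hs0, abs_of_nonneg (show 0 ≤ 1 - s by linarith)] at h3
    have h4 := mul_le_mul_of_nonneg_left ha (show 0 ≤ 1 - s by linarith)
    have h5 := mul_le_mul_of_nonneg_left hb' hs0
    have h6 : (1 - s) * (ρ / 2 * t1) + s * (ρ / 2 * t2) = ρ / 2 * t := by rw [ht]; ring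
    nlinarith
  have hnv : nr v ≤ M := by
    have h2 : v = (1 - s') • y + s' • w := by
      funext i
      simp only [hv, Pi.smul_apply, Pi.add_apply, Pi.sub_apply, smul_eq_mul]
      ring
    rw [h2]
    have h3 := nr_add_le ((1 - s') • y) (s' • w)
    rw [nr_smul, nr_smul, abs_of_nonneg hs'0, abs_of_nonneg (show 0 ≤ 1 - s' by linarith)] at h3
    have h4 := nr_nonneg y
    have h5 := nr_nonneg w
    nlinarith
  have hx1 : (n1 x : ℝ) ≤ t * (M + 1) := by
    have h2 := n1_le_nr (le_of_eq (rfl : nr (vc x - t • v) = nr (vc x - t • v)))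
    rw [nr_smul, abs_of_pos ht0] at h2
    nlinarith
  have hD := h s' ⟨hs'0, hs'1⟩
  have hD1 : κ ≤ D q F c v := hD.trans (min_le_left _ _)
  have hD2 : κ ≤ D q F c (-v) := hD.trans (min_le_right _ _)
  have hCρ : Cc * nr (vc x - t • v) ≤ t * (κ / 2) := by
    have h2 := mul_le_mul_of_nonneg_left hdist hCc0.le
    nlinarith
  have hE1 : t * (κ / 2) ≤ D q F c (vc x) := by
    have h2 := D_sub_le (q := q) (F := F) c (t • v) (vc x)
    rw [D_smul ht0, nr_sub_comm] at h2
    nlinarith
  have hE2 : t * (κ / 2) ≤ D q F c (-vc x) := by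
    have h2 := D_sub_le (q := q) (F := F) c (t • (-v)) (-vc x)
    rw [D_smul ht0] at h2
    have e2 : t • (-v) - -vc x = vc x - t • v := by rw [smul_neg]; abel
    rw [e2] at h2
    nlinarith
  have hη : κ / (4 * (M + 1)) * n1 x < t * (κ / 2) := by
    have h2 : κ / (4 * (M + 1)) * n1 x ≤ κ / (4 * (M + 1)) * (t * (M + 1)) :=
      mul_le_mul_of_nonneg_left hx1 (by positivity)
    have h3 : κ / (4 * (M + 1)) * (t * (M + 1)) = t * κ / 4 := by
      field_simp
    have h4 : 0 < t * κ := by positivity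
    linarith
  refine ⟨?_, hη.trans_le hE1, hη.trans_le hE2⟩
  have h2 := D_le (q := q) (F := F) c (vc x)
  rw [nr_vc] at h2
  have h3 : Cc * |R0| ≤ Cc * n1 x := by
    rw [← hCc] at h2
    linarith
  have h4 := le_of_mul_le_mul_left h3 hCc0
  exact (le_abs_self R0).trans h4

/-- a sequence directed in the face avoids the points which are not near the face -/
lemma avoid {c : E 0} {X : ℕ → V 0} (hX : Dir q F c X) {η : ℝ} (hη : 0 < η) :
    ∃ R0 : ℝ, ∀ x : V 0, R0 ≤ n1 x → η * n1 x < D q F c (vc x) → ∀ n, X n ≠ x := by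
  obtain ⟨N, hN⟩ := eventually_atTop.1 (hX η hη)
  refine ⟨1 + ∑ n ∈ Finset.range N, (n1 (X n) : ℝ), fun x hx hD n hn => ?_⟩
  rcases le_or_gt N n with h | h
  · have h1 := hN n h
    have h2 := L_vc (q := q) (F := F) (X n)
    rw [hn] at h1 h2
    unfold D at hD
    unfold lf at h1
    linarith
  · have h1 := Finset.single_le_sum (f := fun n => (n1 (X n) : ℝ))
      (fun n _ => by exact_mod_cast n1_nonneg (X n)) (Finset.mem_range.2 h)
    have h2 : (n1 (X n) : ℝ) ≤ ∑ n ∈ Finset.range N, (n1 (X n) : ℝ) := h1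
    have h3 : (n1 x : ℝ) = n1 (X n) := by rw [hn]
    linarith

lemma tendsto_n1 {X : ℕ → V 0} (hinj : Function.Injective X) :
    Tendsto (fun n => (n1 (X n) : ℝ)) atTop atTop := by
  rw [tendsto_intCast_atTop_iff]
  refine tendsto_atTop.2 fun K => ?_
  have h1 : (X ⁻¹' {x : V 0 | n1 x ≤ K}).Finite :=
    Set.Finite.preimage (f := X) hinj.injOn (ball_finite9 K)
  rw [← Nat.cofinite_eq_atTop]
  refine h1.subset fun n hn => ?_
  have hn' : ¬ K ≤ n1 (X n) := hn
  exact (not_le.1 hn').le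

/-- a sequence directed in a face tends to infinity for the functionals positive on the face -/
lemma tend {c l : E 0} (hc : c ∈ CC q F)
    (hl : ∀ k : E 0, k ≠ 0 → D q F c k = 0 → 0 < dt l k) {X : ℕ → V 0} (hX : Dir q F c X)
    (hinj : Function.Injective X) : Tendsto (fun n => dt l (vc (X n))) atTop atTop := by
  obtain ⟨κ, hκ, h⟩ := grow hc hl
  have h1 : Tendsto (fun n => κ * (n1 (X n) : ℝ)) atTop atTop :=
    (tendsto_n1 hinj).const_mul_atTop hκ
  refine tendsto_atTop_mono' _ ?_ h1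
  filter_upwards [hX κ hκ] with n hn
  have h2 := L_vc (q := q) (F := F) (X n)
  have h3 : D q F c (vc (X n)) ≤ κ * nr (vc (X n)) := by
    rw [nr_vc]
    unfold D
    unfold lf at hn
    linarith
  have h4 := h _ h3
  rwa [nr_vc] at h4

/-- the topological lemma for long vertical walks -/
lemma topo2 (hT : TopoT) {i j : Fin (0 + 2)} (hij : i ≠ j) {X X' : ℕ → V 0} (h0 : X 0 = 0)
    (h0' : X' 0 = 0) (ha : ∀ n, (lat 0).Adj (X n) (X (n + 1)))
    (ha' : ∀ n, (lat 0).Adj (X' n) (X' (n + 1)))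
    (h1 : Tendsto (fun n => X n i) atTop atTop) (h2 : Tendsto (fun n => X' n i) atTop atBot) :
    ∃ N0 : ℤ, ∀ (a b : V 0) (P : (lat 0).Walk a b), a i = 0 → b i = 0 →
      ((N0 ≤ a j ∧ b j ≤ -N0) ∨ (N0 ≤ b j ∧ a j ≤ -N0)) →
      (∀ n, X n ∉ P.support) → (∀ n, X' n ∉ P.support) → False := by
  obtain ⟨n0, hn0⟩ := eventually_atTop.1
    ((h1.eventually_ge_atTop 2).and (h2.eventually_le_atBot (-1)))
  set N0 : ℤ := 1 + ∑ n ∈ Finset.range n0, (|X n j| + |X' n j|) with hN0
  have hb : ∀ n, n < n0 → |X n j| < N0 ∧ |X' n j| < N0 := by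
    intro n hn
    have h5 := Finset.single_le_sum (f := fun n => |X n j| + |X' n j|)
      (fun n _ => by positivity) (Finset.mem_range.2 hn)
    replace h5 : |X n j| + |X' n j| ≤ ∑ n ∈ Finset.range n0, (|X n j| + |X' n j|) := h5
    have h3 := abs_nonneg (X n j)
    have h4 := abs_nonneg (X' n j)
    constructor <;> linarith
  have key : ∀ (a b : V 0) (P : (lat 0).Walk a b), a i = 0 → b i = 0 → N0 ≤ a j → b j ≤ -N0 →
      (∀ n, X n ∉ P.support) → (∀ n, X' n ∉ P.support) → False := by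
    intro a b P hai hbi haj hbj hP hP'
    refine hT i j hij X X' h0 h0' ha ha' h1 h2 a b P (by rw [hai, hbi]) hP hP' ?_ ?_
    · intro n hn
      have h6 : n < n0 := by
        by_contra h
        push Not at h
        have := (hn0 n h).1
        rcases hn with h | h <;> omega
      have h7 := abs_lt.1 (hb n h6).1
      constructor <;> linarith [h7.1, h7.2]
    · intro n hn
      have h6 : n < n0 := by
        by_contra h
        push Not at h
        have := (hn0 n h).2
        rcases hn with h | h <;> omega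
      have h7 := abs_lt.1 (hb n h6).2
      constructor <;> linarith [h7.1, h7.2]
  refine ⟨N0, fun a b P hai hbi h hP hP' => ?_⟩
  rcases h with h | h
  · exact key a b P hai hbi h.1 h.2 hP hP'
  · refine key b a P.reverse hbi hai h.1 h.2 (fun n => ?_) (fun n => ?_)
    · rw [SimpleGraph.Walk.support_reverse, List.mem_reverse]; exact hP n
    · rw [SimpleGraph.Walk.support_reverse, List.mem_reverse]; exact hP' n

/-! ### the face and the coordinate axes -/

omit [MB q F] in
lemma g_flip (i : Fin (0 + 2)) (x : V 0) :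
    g q F (fun l => (if l = i then -1 else 1) * x l) = g q F x := by
  have ht : ∀ l : Fin (0 + 2), (if l = i then (-1 : ℤ) else 1) * (if l = i then -1 else 1) = 1 := by
    intro l; split_ifs <;> norm_num
  have h := int_act q F (flip (fun l => if l = i then -1 else 1) ht) 0 x
  rw [flip_apply, flip_apply] at h
  have h0 : (fun l : Fin (0 + 2) => (if l = i then (-1 : ℤ) else 1) * (0 : V 0) l) = 0 := by
    funext l; simp
  rw [h0] at h
  exact h

omit [MB q F] in
lemma refl_coef (hS : Smooth q F) {c k : E 0} (hk : k ≠ 0) (h : Supp q F c k)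
    {i : Fin (0 + 2)} (hi : k i = 0) : c i = 0 := by
  obtain ⟨c0, -, -, -, hu⟩ := hS k hk
  set c' : E 0 := fun l => (if l = i then -1 else 1) * c l with hc'
  have h1 : Supp q F c' k := by
    refine ⟨fun x => ?_, fun δ hδ => ?_⟩
    · have h2 := h.1 (fun l => (if l = i then -1 else 1) * x l)
      rw [g_flip] at h2
      have h3 : lf c' x = lf c (fun l => (if l = i then -1 else 1) * x l) := by
        unfold lf dt
        refine Finset.sum_congr rfl fun l _ => ?_
        simp only [hc', vc]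
        split_ifs <;> simp
      rw [h3]; exact h2
    · have h3 : dt c' k = dt c k := by
        unfold dt
        refine Finset.sum_congr rfl fun l _ => ?_
        by_cases hl : l = i
        · subst hl; rw [hi]; ring
        · simp [hc', hl]
      rw [h3]; exact h.2 δ hδ
  have h2 := (hu _ h1).trans (hu _ h).symm
  have h3 := congrFun h2 i
  simp only [hc', if_true] at h3
  linarith

omit [MB q F] in
lemma dt_pos (hS : Smooth q F) {c k : E 0} (hk : k ≠ 0) (h : Supp q F c k) : 0 < dt c k := by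
  obtain ⟨c0, -, -, h0, hu⟩ := hS k hk
  rw [hu c h]; exact h0

/-- the face is in an open half-plane of a coordinate -/
lemma axis (hS : Smooth q F) {c : E 0} (hc : c ∈ CC q F) {k0 : E 0} (hk0 : k0 ≠ 0)
    (hsk : Supp q F c k0) : ∃ (i : Fin (0 + 2)) (τ : ℤ), (τ = 1 ∨ τ = -1) ∧
      ∀ k : E 0, k ≠ 0 → Supp q F c k → 0 < (τ : ℝ) * k i := by
  have h1 : ∃ i : Fin (0 + 2), ∀ k : E 0, k ≠ 0 → Supp q F c k → k i ≠ 0 := by
    by_contra hne
    push Not at hne
    have h2 : c = 0 := by
      funext i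
      obtain ⟨k, hk, hk1, hk2⟩ := hne i
      exact refl_coef hS hk hk1 hk2
    have h3 := dt_pos hS hk0 hsk
    rw [h2] at h3
    simp [dt] at h3
  obtain ⟨i, hi⟩ := h1
  have h2 : ∀ k k' : E 0, k ≠ 0 → Supp q F c k → k' ≠ 0 → Supp q F c k' → 0 < k i → k' i < 0 →
      False := by
    intro k k' hk hsk hk' hsk' h3 h4
    set m : E 0 := (-(k' i)) • k + (k i) • k' with hm
    have h5 : m i = 0 := by
      simp only [hm, Pi.add_apply, Pi.smul_apply, smul_eq_mul]; ring
    have h6 : D q F c m = 0 := by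
      refine le_antisymm ?_ (D_nonneg hc m)
      have h7 := D_add (q := q) (F := F) c ((-(k' i)) • k) ((k i) • k')
      rw [D_smul (neg_pos.2 h4), D_smul h3, (supp_iff_D hc).1 hsk, (supp_iff_D hc).1 hsk',
        mul_zero, mul_zero, add_zero] at h7
      exact h7
    have h8 : 0 < dt c m := by
      rw [hm, dt_add, dt_smul, dt_smul]
      have h9 := dt_pos hS hk hsk
      have h10 := dt_pos hS hk' hsk'
      have h11 : 0 < -k' i := by linarith
      positivity
    have h9 : m ≠ 0 := by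
      intro h
      rw [h] at h8
      simp at h8
    exact hi m h9 ((supp_iff_D hc).2 h6) h5
  rcases lt_or_gt_of_ne (hi k0 hk0 hsk) with h | h
  · refine ⟨i, -1, Or.inr rfl, fun k hk hs => ?_⟩
    rcases lt_or_gt_of_ne (hi k hk hs) with h' | h'
    · push_cast; linarith
    · exact (h2 k k0 hk hs hk0 hsk h' h).elim
  · refine ⟨i, 1, Or.inl rfl, fun k hk hs => ?_⟩
    rcases lt_or_gt_of_ne (hi k hk hs) with h' | h'
    · exact (h2 k0 k hk0 hsk hk hs h h').elim
    · push_cast; linarith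

lemma pos_of_cr {c : E 0} (hc : c ∈ CC q F) {k0 : E 0} (hk0 : k0 ≠ 0) (hsk : Supp q F c k0)
    {v : E 0} (h : ∀ k : E 0, k ≠ 0 → Supp q F c k → 0 < cr k v) :
    0 < D q F c v ∧ 0 < D q F c (-v) := by
  have hv : v ≠ 0 := by
    rintro rfl
    have := h k0 hk0 hsk
    rw [cr_zero] at this
    exact lt_irrefl _ this
  constructor
  · rcases (D_nonneg hc v).lt_or_eq with h1 | h1
    · exact h1
    · have := h v hv ((supp_iff_D hc).2 h1.symm)
      rw [cr_self] at this
      exact absurd this (lt_irrefl _)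
  · rcases (D_nonneg hc (-v)).lt_or_eq with h1 | h1
    · exact h1
    · have := h (-v) (neg_ne_zero.2 hv) ((supp_iff_D hc).2 h1.symm)
      rw [cr_anti, cr_neg, cr_self] at this
      simp at this

omit [MB q F] in
lemma neg_mem_CC {c : E 0} (hc : c ∈ CC q F) : -c ∈ CC q F := by
  intro x
  have h1 := hc (-x)
  rw [g_neg] at h1
  have h2 : lf (-c) x = lf c (-x) := by
    unfold lf
    rw [neg_dt, vc_neg, dt_neg]
  rw [h2]; exact h1

theorem core : CoreT := by
  intro hT q F _ _ hV hF hS c k0 hk0 hsk X X' hX0 hX0' ha ha' hinj hinj' hX hX' y0 y1 hy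
  have hc : c ∈ CC q F := hsk.1
  obtain ⟨i, τ, hτ, hi⟩ := axis hS hc hk0 hsk
  -- the lattice direction `w` on the side of `y1`
  obtain ⟨j, w, hij, hwi, hwj, hw⟩ : ∃ (j : Fin (0 + 2)) (w : V 0), i ≠ j ∧ w i = 0 ∧
      (w j = 1 ∨ w j = -1) ∧ ∀ k : E 0, k ≠ 0 → Supp q F c k → 0 < cr k (vc w) := by
    have hi2 : i = 0 ∨ i = 1 := by fin_cases i <;> simp
    rcases hi2 with rfl | rfl
    · refine ⟨1, ![0, τ], by decide, rfl, hτ, fun k hk hs => ?_⟩
      have h1 : cr k (vc ![0, τ]) = τ * k 0 := by simp [cr, vc]; ring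
      rw [h1]; exact hi k hk hs
    · refine ⟨0, ![-τ, 0], by decide, rfl, ?_, fun k hk hs => ?_⟩
      · rcases hτ with rfl | rfl
        · right; rfl
        · left; rfl
      · have h1 : cr k (vc ![-τ, 0]) = τ * k 1 := by simp [cr, vc]; ring
        rw [h1]; exact hi k hk hs
  -- the sequences tend to infinity in the coordinate `i`
  obtain ⟨N0, hN0⟩ : ∃ N0 : ℤ, ∀ (a b : V 0) (P : (lat 0).Walk a b), a i = 0 → b i = 0 →
      ((N0 ≤ a j ∧ b j ≤ -N0) ∨ (N0 ≤ b j ∧ a j ≤ -N0)) →
      (∀ n, X n ∉ P.support) → (∀ n, X' n ∉ P.support) → False := by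
    set l : E 0 := fun m => if m = i then (τ : ℝ) else 0 with hl
    have hdl : ∀ y : E 0, dt l y = τ * y i := by
      intro y
      unfold dt
      rw [Finset.sum_eq_single i]
      · simp [hl]
      · intro m _ hm; simp [hl, hm]
      · simp
    have t1 : Tendsto (fun n => dt l (vc (X n))) atTop atTop :=
      tend hc (fun k hk hD => by rw [hdl]; exact hi k hk ((supp_iff_D hc).2 hD)) hX hinj
    have t2 : Tendsto (fun n => dt (-l) (vc (X' n))) atTop atTop :=
      tend (neg_mem_CC hc) (fun k hk hD => by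
        rw [neg_dt, hdl]
        rw [D_neg] at hD
        have h1 := hi (-k) (neg_ne_zero.2 hk) ((supp_iff_D hc).2 hD)
        simp only [Pi.neg_apply, mul_neg] at h1
        exact h1) hX' hinj'
    simp only [neg_dt, hdl, vc] at t1 t2
    rcases hτ with rfl | rfl
    · simp only [Int.cast_one, one_mul] at t1 t2
      have t3 : Tendsto (fun n => X n i) atTop atTop := tendsto_intCast_atTop_iff.1 t1
      have t4 : Tendsto (fun n => X' n i) atTop atBot := by
        have t5 : Tendsto (fun n => ((-(X' n i) : ℤ) : ℝ)) atTop atTop := by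
          push_cast; exact t2
        have t6 := tendsto_intCast_atTop_iff.1 t5
        exact tendsto_neg_atTop_iff.1 t6
      exact topo2 hT hij hX0 hX0' ha ha' t3 t4
    · simp only [Int.cast_neg, Int.cast_one, neg_mul, one_mul, neg_neg] at t1 t2
      have t3 : Tendsto (fun n => X' n i) atTop atTop := tendsto_intCast_atTop_iff.1 t2
      have t4 : Tendsto (fun n => X n i) atTop atBot := by
        have t5 : Tendsto (fun n => ((-(X n i) : ℤ) : ℝ)) atTop atTop := by
          push_cast; exact t1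
        have t6 := tendsto_intCast_atTop_iff.1 t5
        exact tendsto_neg_atTop_iff.1 t6
      obtain ⟨N0, h⟩ := topo2 hT hij hX0' hX0 ha' ha t3 t4
      exact ⟨N0, fun a b P h1 h2 h3 h4 h5 => h a b P h1 h2 h3 h5 h4⟩
  -- the segments of directions
  have hS1 : ∀ s : ℝ, 0 ≤ s → s ≤ 1 → 0 < D q F c (y1 + s • (vc w - y1)) ∧
      0 < D q F c (-(y1 + s • (vc w - y1))) := by
    intro s hs0 hs1
    refine pos_of_cr hc hk0 hsk fun k hk hs => ?_
    rw [cr_seg]
    have h1 := (hy k hk hs).2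
    have h2 := hw k hk hs
    rcases hs0.lt_or_eq with h | h
    · have : 0 ≤ (1 - s) * cr k y1 := mul_nonneg (by linarith) h1.le
      have : 0 < s * cr k (vc w) := mul_pos h h2
      linarith
    · rw [← h]; linarith
  have hS0 : ∀ s : ℝ, 0 ≤ s → s ≤ 1 → 0 < D q F c (y0 + s • (-vc w - y0)) ∧
      0 < D q F c (-(y0 + s • (-vc w - y0))) := by
    intro s hs0 hs1
    have h3 : 0 < D q F c (-(y0 + s • (-vc w - y0))) ∧
        0 < D q F c (- -(y0 + s • (-vc w - y0))) := by
      refine pos_of_cr hc hk0 hsk fun k hk hs => ?_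
      rw [cr_neg, cr_seg, cr_neg, cr_anti y0 k]
      have h1 := (hy k hk hs).1
      have h2 := hw k hk hs
      rcases hs0.lt_or_eq with h | h
      · have : 0 ≤ (1 - s) * cr y0 k := mul_nonneg (by linarith) h1.le
        have : 0 < s * cr k (vc w) := mul_pos h h2
        linarith
      · rw [← h]; linarith
    rw [neg_neg] at h3
    exact ⟨h3.2, h3.1⟩
  obtain ⟨η1, ε1, hη1, hε1, hW1⟩ := cone_walk hS1
  obtain ⟨η0, ε0, hη0, hε0, hW0⟩ := cone_walk hS0
  set η := min η0 η1 with hη
  have hηp : 0 < η := lt_min hη0 hη1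
  obtain ⟨A, hA⟩ := avoid hX hηp
  obtain ⟨A', hA'⟩ := avoid hX' hηp
  obtain ⟨R1, hR1⟩ := hW1 (max A A')
  obtain ⟨R0, hR0⟩ := hW0 (max A A')
  have hy1 : y1 ≠ 0 := by
    rintro rfl
    have := (hy k0 hk0 hsk).2
    rw [cr_zero] at this
    exact lt_irrefl _ this
  have hy0 : y0 ≠ 0 := by
    rintro rfl
    have := (hy k0 hk0 hsk).1
    rw [cr_anti, cr_zero, neg_zero] at this
    exact lt_irrefl _ this
  have hn1 := nr_pos hy1
  have hn0 := nr_pos hy0
  obtain ⟨N, hN⟩ := exists_nat_ge (max (max R0 R1) N0)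
  have hNR0 : R0 ≤ N := ((le_max_left _ _).trans (le_max_left _ _)).trans hN
  have hNR1 : R1 ≤ N := ((le_max_right _ _).trans (le_max_left _ _)).trans hN
  have hNN0 : N0 ≤ (N : ℤ) := by
    have : (N0 : ℝ) ≤ N := (le_max_right _ _).trans hN
    exact_mod_cast this
  refine ⟨max (R1 * nr y1) (R0 * nr y0), min (ε1 / nr y1) (ε0 / nr y0),
    lt_min (by positivity) (by positivity), fun a b P ha1 hb1 ha2 hb2 hP hP' => ?_⟩
  have hvN : vc ((N : ℤ) • w) = (N : ℝ) • vc w := by rw [vc_smul]; simp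
  have hna : (0 : ℝ) ≤ n1 a := by exact_mod_cast n1_nonneg a
  have hnb : (0 : ℝ) ≤ n1 b := by exact_mod_cast n1_nonneg b
  obtain ⟨P1, hP1⟩ := hR1 (n1 a / nr y1) N a ((N : ℤ) • w)
    (by rw [le_div_iff₀ hn1]; exact (le_max_left _ _).trans ha1) hNR1
    (by
      refine ha2.trans ?_
      have h1 : min (ε1 / nr y1) (ε0 / nr y0) * n1 a ≤ ε1 / nr y1 * n1 a :=
        mul_le_mul_of_nonneg_right (min_le_left _ _) hna
      refine h1.trans (le_of_eq ?_)
      ring)
    (by rw [hvN, sub_self, nr_zero]; positivity)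
  obtain ⟨P0, hP0⟩ := hR0 (n1 b / nr y0) N b (-((N : ℤ) • w))
    (by rw [le_div_iff₀ hn0]; exact (le_max_right _ _).trans hb1) hNR0
    (by
      refine hb2.trans ?_
      have h1 : min (ε1 / nr y1) (ε0 / nr y0) * n1 b ≤ ε0 / nr y0 * n1 b :=
        mul_le_mul_of_nonneg_right (min_le_right _ _) hnb
      refine h1.trans (le_of_eq ?_)
      ring)
    (by rw [vc_neg, hvN, smul_neg, sub_self, nr_zero]; positivity)
  have hoff : ∀ x : V 0, (max A A' ≤ n1 x ∧ η * n1 x < D q F c (vc x) ∧
      η * n1 x < D q F c (-vc x)) → (∀ n, X n ≠ x) ∧ (∀ n, X' n ≠ x) := by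
    intro x hx
    refine ⟨hA x ((le_max_left _ _).trans hx.1) hx.2.1, hA' x ((le_max_right _ _).trans hx.1) ?_⟩
    rw [D_neg]; exact hx.2.2
  have hoff1 : ∀ x ∈ P1.support, (∀ n, X n ≠ x) ∧ (∀ n, X' n ≠ x) := by
    intro x hx
    obtain ⟨h1, h2, h3⟩ := hP1 x hx
    have h4 : η * n1 x ≤ η1 * n1 x :=
      mul_le_mul_of_nonneg_right (min_le_right _ _) (by exact_mod_cast n1_nonneg x)
    exact hoff x ⟨h1, h4.trans_lt h2, h4.trans_lt h3⟩
  have hoff0 : ∀ x ∈ P0.support, (∀ n, X n ≠ x) ∧ (∀ n, X' n ≠ x) := by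
    intro x hx
    obtain ⟨h1, h2, h3⟩ := hP0 x hx
    have h4 : η * n1 x ≤ η0 * n1 x :=
      mul_le_mul_of_nonneg_right (min_le_left _ _) (by exact_mod_cast n1_nonneg x)
    exact hoff x ⟨h1, h4.trans_lt h2, h4.trans_lt h3⟩
  have hsup : ∀ x, x ∈ ((P1.reverse.append P).append P0).support →
      x ∈ P1.support ∨ x ∈ P.support ∨ x ∈ P0.support := by
    intro x hx
    rw [SimpleGraph.Walk.mem_support_append_iff, SimpleGraph.Walk.mem_support_append_iff,
      SimpleGraph.Walk.support_reverse, List.mem_reverse] at hx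
    tauto
  refine hN0 _ _ ((P1.reverse.append P).append P0) ?_ ?_ ?_ (fun n hn => ?_) (fun n hn => ?_)
  · simp [hwi]
  · simp [hwi]
  · rcases hwj with h | h
    · left
      simp only [Pi.smul_apply, Pi.neg_apply, h, smul_eq_mul, mul_one]
      exact ⟨hNN0, neg_le_neg hNN0⟩
    · right
      simp only [Pi.smul_apply, Pi.neg_apply, h, smul_eq_mul, mul_neg, mul_one, neg_neg]
      exact ⟨hNN0, neg_le_neg hNN0⟩
  · rcases hsup _ hn with h | h | h
    · exact (hoff1 _ h).1 n rfl
    · exact hP n h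
    · exact (hoff0 _ h).1 n rfl
  · rcases hsup _ hn with h | h | h
    · exact (hoff1 _ h).2 n rfl
    · exact hP' n h
    · exact (hoff0 _ h).2 n rfl

end Pool.Agent.J6H9.DX
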